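import Pool.Agent.Y758.FI.Glue
import Pool.Agent.Y758.FI.A1
import Pool.Agent.Y758.FI.A2
import Pool.Agent.Y758.FI.B
import Pool.Agent.Y758.FI.E
import Pool.Agent.Y758.FI.F1
import Pool.Agent.Y758.FI.F2
import Pool.Agent.Y758.FI.F4
import Pool.Agent.Y758.FI.G
import Pool.Agent.Y758.FI.S0
import Pool.Agent.Y758.FI.S1
import Pool.Agent.Y758.FI.S2
import Pool.Agent.Y758.FI.S3
import Pool.Agent.Y758.FI.S4
import Pool.Agent.Y758.FI.S5
import Pool.Agent.Y758.FI.S6

/-!
# F-injective rings with a parameter ideal that is not Frobenius closed: every characteristic `p`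
and every dimension `d ≥ 3`

Let `e = p ^ 2 - 1`, let `k = 𝔽_p(s, t)` and let `K = k(α)`, `α ^ (p ^ 2) = s α ^ p + t`, an
inseparable extension of degree `p ^ 2` without purely inseparable elements. Let `T` be the local
ring at the origin of the ring spanned by the monomials in `u, v, z_1, …, z_r` over `k` whose
degree in `u, v` is divisible by `e`; it is a Frobenius split local domain of dimension `r + 2`.
It has the quotient `R0 = {f ∈ K[y]_(y) : f(0) ∈ k}`, `u ^ i v ^ (e - i) ↦ α ^ i y`, `z_j ↦ 0`.
The ring is the amalgamated duplication `R = T ×_{R0} T`, of dimension `d = r + 2`.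

Authors of the parts: helper758 (statements, assembly), 891 (A1), 487 (A2), 259 (B), 681 (E),
409 (F1), 692 (F2), 903 (F4), 195 (G), 768 (S0), 291 (S1), 73 (S2), 37 (S3), 79 (S4), 864 (S5),
406 (S6); several parts adapt the starting library `H503R3.FI` (`p = 2`, `d = 4`).
-/

set_option autoImplicit false

namespace Pool.Agent.Results.MP_05c1ee_al.EveryPrimeEveryDimension

open H503R3.FI Pool.Agent.Y758.FI

/-- For every prime number `p` and every `d ≥ 3` there is a Noetherian local ring `R` of
characteristic `p` and dimension `d`, essentially of finite type over a field (hence excellent),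
equidimensional and F-injective, with a parameter ideal that is not Frobenius closed. -/
theorem result (p : ℕ) (hp : p.Prime) (d : ℕ) (hd : 3 ≤ d) :
    ∃ (k : Type) (_ : Field k) (R : Type) (_ : CommRing R) (_ : Algebra k R) (_ : IsLocalRing R),
      CharP R p ∧ IsNoetherianRing R ∧ Algebra.EssFiniteType k R ∧
      ringKrullDim R = (d : WithBot ℕ∞) ∧
      (∀ P ∈ minimalPrimes R, ringKrullDim (R ⧸ P) = ringKrullDim R) ∧
      FInjective p R ∧ ∃ q : Ideal R, IsParameterIdeal R q ∧ ¬ FrobeniusClosed p q :=
  glue FI_E FI_F1 FI_F2 FI_F4 FI_G FI_A1 FI_A2 (FI_S1 FI_S0) (FI_S2 FI_S0) FI_S3 (FI_S4 FI_S0)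
    FI_S5 (FI_S6 FI_S0) FI_B p hp d hd

end Pool.Agent.Results.MP_05c1ee_al.EveryPrimeEveryDimension
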